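/-
JO-B (MP_4d96c9_nt): groups acting on binary trees, basic notions.
-/
import Pool.Agent.Helper13.JO.Defs

set_option autoImplicit false

namespace Pool.Agent.Helper5.JO

open Pool.Agent.Helper13.JO

variable {G Ω : Type} [Group G] [MulAction G Ω] {M : ℕ} (t : TreeAct G Ω M)

theorem anti_le {i j : ℕ} (h : i ≤ j) (x y : Ω) : (t.r j) x y → (t.r i) x y := by
  induction h with
  | refl => exact id
  | step _ ih => exact fun h => ih (t.anti _ _ _ h)

/-- The pointwise stabiliser of level `j`. -/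
def N (j : ℕ) : Subgroup G where
  carrier := {g | ∀ x, (t.r j) (g • x) x}
  mul_mem' := by
    intro a b ha hb x
    rw [mul_smul]
    exact (t.r j).trans (ha _) (hb x)
  one_mem' := by
    intro x
    rw [one_smul]
  inv_mem' := by
    intro a ha x
    have := ha (a⁻¹ • x)
    rw [smul_inv_smul] at this
    exact (t.r j).symm this

theorem mem_N {j : ℕ} {g : G} : g ∈ N t j ↔ ∀ x, (t.r j) (g • x) x := Iff.rfl

theorem N_conj {j : ℕ} {n : G} (hn : n ∈ N t j) (g : G) : g * n * g⁻¹ ∈ N t j := by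
  intro x
  have := t.inv j g _ _ (hn (g⁻¹ • x))
  rwa [smul_inv_smul, smul_smul, smul_smul] at this

theorem N_conj' {j : ℕ} {n : G} (hn : n ∈ N t j) (g : G) : g⁻¹ * n * g ∈ N t j := by
  have := N_conj t hn g⁻¹
  rwa [inv_inv] at this

theorem N_anti {i j : ℕ} (h : i ≤ j) : N t j ≤ N t i := fun _ hg x => anti_le t h _ _ (hg x)

theorem N_zero (g : G) : g ∈ N t 0 := fun _ => t.top _ _

/-- The orbit of `x` under `N j`. -/
def cls (j : ℕ) (x : Ω) : Set Ω := {y | ∃ n ∈ N t j, n • x = y}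

theorem mem_cls_self (j : ℕ) (x : Ω) : x ∈ cls t j x := ⟨1, (N t j).one_mem, one_smul _ _⟩

theorem cls_symm {j : ℕ} {x y : Ω} (h : y ∈ cls t j x) : x ∈ cls t j y := by
  obtain ⟨n, hn, rfl⟩ := h
  exact ⟨n⁻¹, (N t j).inv_mem hn, inv_smul_smul _ _⟩

theorem cls_trans {j : ℕ} {x y z : Ω} (h : y ∈ cls t j x) (h' : z ∈ cls t j y) :
    z ∈ cls t j x := by
  obtain ⟨n, hn, rfl⟩ := h
  obtain ⟨n', hn', rfl⟩ := h'
  exact ⟨n' * n, (N t j).mul_mem hn' hn, mul_smul _ _ _⟩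

theorem cls_eq {j : ℕ} {x y : Ω} (h : y ∈ cls t j x) : cls t j x = cls t j y := by
  ext z
  exact ⟨fun hz => cls_trans t (cls_symm t h) hz, fun hz => cls_trans t h hz⟩

theorem cls_eq_iff {j : ℕ} {x y : Ω} : cls t j x = cls t j y ↔ y ∈ cls t j x :=
  ⟨fun h => h ▸ mem_cls_self t j y, cls_eq t⟩

theorem smul_mem_cls {j : ℕ} {x y : Ω} (g : G) (h : y ∈ cls t j x) :
    g • y ∈ cls t j (g • x) := by
  obtain ⟨n, hn, rfl⟩ := h
  refine ⟨g * n * g⁻¹, N_conj t hn g, ?_⟩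
  rw [smul_smul, inv_mul_cancel_right, mul_smul]

theorem smul_mem_cls_iff {j : ℕ} {x y : Ω} (g : G) :
    g • y ∈ cls t j (g • x) ↔ y ∈ cls t j x := by
  refine ⟨fun h => ?_, smul_mem_cls t g⟩
  have := smul_mem_cls t g⁻¹ h
  rwa [inv_smul_smul, inv_smul_smul] at this

theorem cls_anti {i j : ℕ} (h : i ≤ j) (x : Ω) : cls t j x ⊆ cls t i x := by
  rintro _ ⟨n, hn, rfl⟩
  exact ⟨n, N_anti t h hn, rfl⟩

theorem cls_r {j : ℕ} {x y : Ω} (h : y ∈ cls t j x) : (t.r j) y x := by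
  obtain ⟨n, hn, rfl⟩ := h
  exact hn x

theorem cls_zero [MulAction.IsPretransitive G Ω] (x y : Ω) : y ∈ cls t 0 x := by
  obtain ⟨g, hg⟩ := MulAction.exists_smul_eq G x y
  exact ⟨g, N_zero t g, hg⟩

theorem cls_top {x y : Ω} (h : y ∈ cls t M x) : y = x := t.bot _ _ (cls_r t h)

/-- The points whose `N j`-orbit is fixed by `g`. -/
def Fx (j : ℕ) (g : G) : Set Ω := {x | g • x ∈ cls t j x}

theorem mem_Fx {j : ℕ} {g : G} {x : Ω} : x ∈ Fx t j g ↔ g • x ∈ cls t j x := Iff.rfl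

theorem Fx_anti {i j : ℕ} (h : i ≤ j) (g : G) : Fx t j g ⊆ Fx t i g :=
  fun x hx => cls_anti t h x hx

theorem Fx_sat {j : ℕ} {g : G} {x y : Ω} (hx : x ∈ Fx t j g) (hy : y ∈ cls t j x) :
    y ∈ Fx t j g := by
  have h1 : g • y ∈ cls t j (g • x) := smul_mem_cls t g hy
  have h2 : g • y ∈ cls t j x := cls_trans t hx h1
  exact cls_trans t (cls_symm t hy) h2

theorem Fx_mul_le {j : ℕ} (g : G) {n : G} (hn : n ∈ N t j) : Fx t j g ⊆ Fx t j (g * n) := by
  intro x hx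
  rw [mem_Fx, mul_smul]
  have h1 : n • x ∈ cls t j x := ⟨n, hn, rfl⟩
  exact cls_trans t hx (smul_mem_cls t g h1)

theorem Fx_mul {j : ℕ} (g : G) {n : G} (hn : n ∈ N t j) : Fx t j (g * n) = Fx t j g := by
  apply Set.Subset.antisymm
  · have := Fx_mul_le t (g * n) ((N t j).inv_mem hn)
    rwa [mul_inv_cancel_right] at this
  · exact Fx_mul_le t g hn

/-- The number of `N m`-orbits containing an `N j`-orbit fixed by `g`. -/
noncomputable def F (m j : ℕ) (g : G) : ℕ := (cls t m '' Fx t j g).ncard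

/-- The number of `N j`-orbits fixed by `g`. -/
noncomputable def Xn (j : ℕ) (g : G) : ℕ := F t j j g

theorem F_mul {m j : ℕ} (g : G) {n : G} (hn : n ∈ N t j) : F t m j (g * n) = F t m j g := by
  unfold F
  rw [Fx_mul t g hn]

theorem Xn_mul {j : ℕ} (g : G) {n : G} (hn : n ∈ N t j) : Xn t j (g * n) = Xn t j g :=
  F_mul t g hn

theorem F_anti [Finite Ω] {m i j : ℕ} (h : i ≤ j) (g : G) : F t m j g ≤ F t m i g :=
  Set.ncard_le_ncard (Set.image_mono (Fx_anti t h g)) (Set.toFinite _)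

theorem F_eq_zero [Finite Ω] {m j : ℕ} {g : G} : F t m j g = 0 ↔ Fx t j g = ∅ := by
  unfold F
  rw [Set.ncard_eq_zero (Set.toFinite _), Set.image_eq_empty]

theorem Xn_zero [Finite Ω] [Nonempty Ω] [MulAction.IsPretransitive G Ω] (g : G) :
    Xn t 0 g = 1 := by
  unfold Xn F
  rw [Set.ncard_eq_one]
  obtain ⟨x0⟩ := ‹Nonempty Ω›
  refine ⟨cls t 0 x0, ?_⟩
  ext s
  constructor
  · rintro ⟨x, _, rfl⟩
    exact cls_eq t (cls_zero t x x0)
  · rintro rfl
    exact ⟨x0, cls_zero t _ _, rfl⟩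

end Pool.Agent.Helper5.JO
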