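/-
JO-B (MP_4d96c9_nt): averages over cosets, martingale property.
-/
import Pool.Agent.Helper5.JO.Tree1

set_option autoImplicit false

namespace Pool.Agent.Helper5.JO

open Pool.Agent.Helper13.JO

open scoped Classical in
/-- The elements of `N j` as a finset. -/
noncomputable def Nf {G Ω : Type} [Group G] [MulAction G Ω] {M : ℕ} (t : TreeAct G Ω M)
    [Fintype G] (j : ℕ) : Finset G := Finset.univ.filter (· ∈ N t j)

variable {G Ω : Type} [Group G] [MulAction G Ω] {M : ℕ} (t : TreeAct G Ω M) [Fintype G]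

theorem mem_Nf {j : ℕ} {g : G} : g ∈ Nf t j ↔ g ∈ N t j := by
  classical
  simp [Nf]

theorem Nf_card_pos (j : ℕ) : 0 < (Nf t j).card :=
  Finset.card_pos.2 ⟨1, (mem_Nf t).2 (N t j).one_mem⟩

theorem sum_Nf_mul {A : Type} [AddCommMonoid A] {j : ℕ} (f : G → A) {n : G} (hn : n ∈ N t j) :
    ∑ a ∈ Nf t j, f (a * n) = ∑ a ∈ Nf t j, f a := by
  refine Finset.sum_equiv (Equiv.mulRight n) (fun a => ?_) (fun a _ => rfl)
  rw [mem_Nf, mem_Nf]
  exact ((N t j).mul_mem_cancel_right hn).symm

/-- the average of the averages -/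
theorem sum_sum_Nf {A : Type} [AddCommMonoid A] {i j : ℕ} (h : i ≤ j) (f : G → A) (g : G) :
    ∑ a ∈ Nf t i, ∑ b ∈ Nf t j, f (g * a * b) = (Nf t j).card • ∑ a ∈ Nf t i, f (g * a) := by
  rw [Finset.sum_comm]
  rw [Finset.sum_congr rfl (g := fun _ => ∑ a ∈ Nf t i, f (g * a))]
  · rw [Finset.sum_const]
  · intro b hb
    have := sum_Nf_mul t (j := i) (fun a => f (g * a)) (N_anti t h ((mem_Nf t).1 hb))
    rw [← this]
    exact Finset.sum_congr rfl fun a _ => by rw [mul_assoc]

theorem Nf_zero : Nf t 0 = Finset.univ := by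
  ext g
  simp [mem_Nf, N_zero]

theorem sum_univ_Nf {A : Type} [AddCommMonoid A] (j : ℕ) (f : G → A) :
    ∑ g, ∑ b ∈ Nf t j, f (g * b) = (Nf t j).card • ∑ g, f g := by
  have := sum_sum_Nf t (Nat.zero_le j) f 1
  simp only [one_mul, Nf_zero] at this
  exact this

/-! ### Martingale property -/

omit [Fintype G] in
/-- the size of the orbits -/
theorem cls_ncard_eq [Finite Ω] [MulAction.IsPretransitive G Ω] (j : ℕ) (x y : Ω) :
    (cls t j x).ncard = (cls t j y).ncard := by
  obtain ⟨g, hg⟩ := MulAction.exists_smul_eq G x y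
  have h1 : cls t j y = (fun z => g • z) '' cls t j x := by
    ext z
    constructor
    · intro hz
      refine ⟨g⁻¹ • z, ?_, smul_inv_smul _ _⟩
      rw [← hg] at hz
      have := smul_mem_cls t g⁻¹ hz
      rwa [inv_smul_smul] at this
    · rintro ⟨w, hw, rfl⟩
      have := smul_mem_cls t g hw
      rwa [hg] at this
  rw [h1, Set.ncard_image_of_injective _ (MulAction.injective g)]

omit [Fintype G] in
theorem cls_ncard_pos [Finite Ω] (j : ℕ) (x : Ω) : 0 < (cls t j x).ncard :=
  (Set.ncard_pos (Set.toFinite _)).2 ⟨x, mem_cls_self t j x⟩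

open scoped Classical in
/-- number of group elements mapping `x` to `y`, `y` in the orbit of `x`. -/
theorem card_fiber (j : ℕ) (x y : Ω) (hy : y ∈ cls t j x) :
    ((Nf t j).filter (fun n => n • x = y)).card = ((Nf t j).filter (fun n => n • x = x)).card := by
  obtain ⟨m, hm, rfl⟩ := hy
  refine Finset.card_bij' (fun n _ => m⁻¹ * n) (fun n _ => m * n) ?_ ?_ ?_ ?_
  · intro n hn
    simp only [Finset.mem_filter, mem_Nf] at hn ⊢
    refine ⟨(N t j).mul_mem ((N t j).inv_mem hm) hn.1, ?_⟩
    rw [mul_smul, hn.2, inv_smul_smul]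
  · intro n hn
    simp only [Finset.mem_filter, mem_Nf] at hn ⊢
    refine ⟨(N t j).mul_mem hm hn.1, ?_⟩
    rw [mul_smul, hn.2]
  · intro n _; simp
  · intro n _; simp

open scoped Classical in
theorem card_into (j : ℕ) (x : Ω) (S : Finset Ω) (hS : ∀ y ∈ S, y ∈ cls t j x) :
    ((Nf t j).filter (fun n => n • x ∈ S)).card =
      S.card * ((Nf t j).filter (fun n => n • x = x)).card := by
  have h1 : ((Nf t j).filter (fun n => n • x ∈ S)).card =
      ∑ y ∈ S, ((Nf t j).filter (fun n => n • x = y)).card := by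
    rw [Finset.card_eq_sum_card_fiberwise (f := fun n => n • x) (t := S)]
    · refine Finset.sum_congr rfl fun y hy => ?_
      congr 1
      ext n
      simp only [Finset.mem_filter]
      constructor
      · rintro ⟨⟨h1, _⟩, h3⟩; exact ⟨h1, h3⟩
      · rintro ⟨h1, h3⟩; exact ⟨⟨h1, h3 ▸ hy⟩, h3⟩
    · intro n hn
      simp only [Finset.coe_filter, Set.mem_ofPred_eq] at hn
      exact hn.2
  rw [h1, Finset.sum_congr rfl fun y hy => card_fiber t j x y (hS y hy), Finset.sum_const,
    smul_eq_mul]

open scoped Classical in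
/-- `Y`: the number of points whose orbit is fixed. -/
theorem Fx_ncard [Finite Ω] [MulAction.IsPretransitive G Ω] (j : ℕ) (g : G) (x0 : Ω) :
    (Fx t j g).ncard = Xn t j g * (cls t j x0).ncard := by
  have := Fintype.ofFinite Ω
  have h1 : (Fx t j g).ncard = (Fx t j g).toFinset.card := Set.ncard_eq_toFinset_card' _
  rw [h1, Finset.card_eq_sum_card_image (cls t j)]
  have h2 : ∀ O ∈ (Fx t j g).toFinset.image (cls t j),
      ((Fx t j g).toFinset.filter (fun x => cls t j x = O)).card = (cls t j x0).ncard := by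
    intro O hO
    simp only [Finset.mem_image, Set.mem_toFinset] at hO
    obtain ⟨x, hx, rfl⟩ := hO
    rw [cls_ncard_eq t j x0 x, Set.ncard_eq_toFinset_card']
    congr 1
    ext y
    simp only [Finset.mem_filter, Set.mem_toFinset]
    rw [cls_eq_iff]
    exact ⟨fun h => cls_symm t h.2, fun h => ⟨Fx_sat t hx h, cls_symm t h⟩⟩
  rw [Finset.sum_congr rfl h2, Finset.sum_const, smul_eq_mul]
  congr 1
  unfold Xn F
  rw [Set.ncard_eq_toFinset_card']
  congr 1
  ext O
  simp

open scoped Classical in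
/-- The martingale property. -/
theorem martingale [Finite Ω] [Nonempty Ω] [MulAction.IsPretransitive G Ω] (j : ℕ) (g : G) :
    ∑ n ∈ Nf t j, Xn t (j + 1) (g * n) = (Nf t j).card * Xn t j g := by
  have := Fintype.ofFinite Ω
  obtain ⟨x0⟩ := ‹Nonempty Ω›
  have hs : 0 < (cls t (j + 1) x0).ncard := cls_ncard_pos t _ _
  have hs' : 0 < (cls t j x0).ncard := cls_ncard_pos t _ _
  -- count pairs
  have h1 : ∑ n ∈ Nf t j, (Fx t (j + 1) (g * n)).ncard =
      ∑ x : Ω, ((Nf t j).filter (fun n => x ∈ Fx t (j + 1) (g * n))).card := by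
    have h2 : ∀ n, (Fx t (j + 1) (g * n)).ncard =
        ∑ x : Ω, if x ∈ Fx t (j + 1) (g * n) then 1 else 0 := by
      intro n
      rw [Set.ncard_eq_toFinset_card', Finset.sum_ite, Finset.sum_const_zero, add_zero,
        Finset.sum_const, smul_eq_mul, mul_one]
      congr 1
      ext x
      simp
    simp_rw [h2]
    rw [Finset.sum_comm]
    refine Finset.sum_congr rfl fun x _ => ?_
    rw [Finset.card_filter]
  -- each point
  have h3 : ∀ x : Ω, ((Nf t j).filter (fun n => x ∈ Fx t (j + 1) (g * n))).card *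
      (cls t j x0).ncard = if x ∈ Fx t j g then (Nf t j).card * (cls t (j + 1) x0).ncard else 0 := by
    intro x
    split_ifs with hx
    · -- the set of targets
      set S : Finset Ω := ((fun z => g⁻¹ • z) '' cls t (j + 1) x).toFinset with hS
      have hS1 : ∀ y ∈ S, y ∈ cls t j x := by
        intro y hy
        simp only [hS, Set.mem_toFinset] at hy
        obtain ⟨z, hz, rfl⟩ := hy
        have h4 := smul_mem_cls t g⁻¹ (cls_anti t (Nat.le_succ j) x hz)
        have h5 := smul_mem_cls t g⁻¹ hx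
        rw [inv_smul_smul] at h5
        exact cls_trans t (cls_symm t h5) h4
      have h4 := card_into t j x S hS1
      have h5 := card_into t j x (cls t j x).toFinset (fun y hy => by simpa using hy)
      have h6 : (Nf t j).filter (fun n => n • x ∈ (cls t j x).toFinset) = Nf t j := by
        rw [Finset.filter_eq_self]
        intro n hn
        rw [Set.mem_toFinset]
        exact ⟨n, (mem_Nf t).1 hn, rfl⟩
      have h7 : (Nf t j).filter (fun n => x ∈ Fx t (j + 1) (g * n)) =
          (Nf t j).filter (fun n => n • x ∈ S) := by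
        refine Finset.filter_congr fun n _ => ?_
        rw [mem_Fx, mul_smul]
        simp only [hS, Set.mem_toFinset]
        constructor
        · intro h
          exact ⟨g • n • x, h, inv_smul_smul _ _⟩
        · rintro ⟨z, hz, hz'⟩
          rw [← hz', smul_inv_smul]
          exact hz
      have h8 : S.card = (cls t (j + 1) x0).ncard := by
        rw [cls_ncard_eq t (j + 1) x0 x, ← Set.ncard_image_of_injective (cls t (j + 1) x)
          (MulAction.injective g⁻¹), Set.ncard_eq_toFinset_card']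
      have h9 : (cls t j x).toFinset.card = (cls t j x0).ncard := by
        rw [cls_ncard_eq t j x0 x, Set.ncard_eq_toFinset_card']
      rw [h6, h9] at h5
      rw [h7, h4, h8, h5]
      ring
    · rw [Finset.card_eq_zero.2, zero_mul]
      rw [Finset.filter_eq_empty_iff]
      intro n hn h
      apply hx
      rw [← Fx_mul t g ((mem_Nf t).1 hn)]
      exact Fx_anti t (Nat.le_succ j) _ h
  have h4 : (∑ n ∈ Nf t j, (Fx t (j + 1) (g * n)).ncard) * (cls t j x0).ncard =
      (Fx t j g).ncard * ((Nf t j).card * (cls t (j + 1) x0).ncard) := by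
    rw [h1, Finset.sum_mul, Finset.sum_congr rfl fun x _ => h3 x, Finset.sum_ite,
      Finset.sum_const_zero, add_zero, Finset.sum_const, smul_eq_mul]
    congr 1
    rw [Set.ncard_eq_toFinset_card']
    congr 1
    ext x
    simp
  have h5 : (∑ n ∈ Nf t j, (Fx t (j + 1) (g * n)).ncard) =
      (∑ n ∈ Nf t j, Xn t (j + 1) (g * n)) * (cls t (j + 1) x0).ncard := by
    rw [Finset.sum_mul]
    exact Finset.sum_congr rfl fun n _ => Fx_ncard t (j + 1) (g * n) x0
  rw [h5, Fx_ncard t j g x0] at h4
  have h6 : 0 < (cls t (j + 1) x0).ncard * (cls t j x0).ncard := Nat.mul_pos hs hs'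
  apply Nat.eq_of_mul_eq_mul_right h6
  calc _ = (∑ n ∈ Nf t j, Xn t (j + 1) (g * n)) * (cls t (j + 1) x0).ncard *
        (cls t j x0).ncard := by ring
    _ = _ := by rw [h4]; ring

/-- The martingale property against an invariant function. -/
theorem martingale_sum [Finite Ω] [Nonempty Ω] [MulAction.IsPretransitive G Ω] (j : ℕ)
    (f : G → ℝ) (hf : ∀ g, ∀ n ∈ N t j, f (g * n) = f g) :
    ∑ g, f g * (Xn t (j + 1) g : ℝ) = ∑ g, f g * (Xn t j g : ℝ) := by
  have h1 := sum_univ_Nf t j (fun g => f g * (Xn t (j + 1) g : ℝ))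
  have h2 : ∀ g : G, ∑ b ∈ Nf t j, f (g * b) * (Xn t (j + 1) (g * b) : ℝ) =
      (Nf t j).card * (f g * (Xn t j g : ℝ)) := by
    intro g
    rw [Finset.sum_congr rfl (g := fun b => f g * (Xn t (j + 1) (g * b) : ℝ)) (fun b hb => by
      rw [hf g b ((mem_Nf t).1 hb)]), ← Finset.mul_sum]
    have := martingale t j g
    have h3 : (∑ n ∈ Nf t j, (Xn t (j + 1) (g * n) : ℝ)) = (Nf t j).card * (Xn t j g : ℝ) := by
      exact_mod_cast this
    rw [h3]
    ring
  rw [Finset.sum_congr rfl fun g _ => h2 g, ← Finset.mul_sum, nsmul_eq_mul] at h1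
  have h3 : ((Nf t j).card : ℝ) ≠ 0 := by
    have := Nf_card_pos t j
    positivity
  exact (mul_left_cancel₀ h3 h1).symm

theorem sum_Xn [Finite Ω] [Nonempty Ω] [MulAction.IsPretransitive G Ω] (j : ℕ) :
    ∑ g, (Xn t j g : ℝ) = Fintype.card G := by
  induction j with
  | zero =>
    simp [Xn_zero]
  | succ j ih =>
    have := martingale_sum t j (fun _ => 1) (fun _ _ _ => rfl)
    simp only [one_mul] at this
    rw [this, ih]

end Pool.Agent.Helper5.JO
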