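/-
JO-B (MP_4d96c9_nt): potential argument, probabilities in cosets.
-/
import Pool.Agent.Helper5.JO.Tree2

set_option autoImplicit false

namespace Pool.Agent.Helper5.JO

open Pool.Agent.Helper13.JO

/-- The basic numerical inequality. -/
theorem half_ineq (x y : ℕ) : -(3 / 4) * (1 / 2 : ℝ) ^ x * ((y : ℝ) - x) +
    (if y ≠ x then (1 / 4) * (1 / 2 : ℝ) ^ x else 0) ≤ (1 / 2 : ℝ) ^ y - (1 / 2) ^ x := by
  rcases lt_trichotomy x y with h | h | h
  · obtain ⟨d, rfl⟩ := Nat.exists_eq_add_of_lt h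
    rw [if_pos (by omega)]
    have h1 : (0 : ℝ) < (1 / 2) ^ x := by positivity
    have h2 : (1 / 2 : ℝ) ^ (x + d + 1) = (1 / 2) ^ x * (1 / 2) ^ (d + 1) := by
      rw [← pow_add]; congr 1
    rw [h2]
    push_cast
    have h3 : -(3 / 4 : ℝ) * ((d : ℝ) + 1) + 1 / 4 ≤ (1 / 2) ^ (d + 1) - 1 := by
      rcases Nat.eq_zero_or_pos d with rfl | hd
      · norm_num
      · have h4 : (1 : ℝ) ≤ d := by exact_mod_cast hd
        have h5 : (0 : ℝ) < (1 / 2) ^ (d + 1) := by positivity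
        linarith
    nlinarith [mul_le_mul_of_nonneg_left h3 h1.le]
  · subst h
    simp
  · obtain ⟨d, rfl⟩ := Nat.exists_eq_add_of_lt h
    rw [if_pos (by omega)]
    have h1 : (0 : ℝ) < (1 / 2) ^ (y + d + 1) := by positivity
    have h2 : (1 / 2 : ℝ) ^ y = (1 / 2) ^ (y + d + 1) * 2 ^ (d + 1) := by
      rw [show y + d + 1 = y + (d + 1) by ring, pow_add, mul_assoc, ← mul_pow]
      norm_num
    rw [h2]
    push_cast
    have h3 : (3 / 4 : ℝ) * ((d : ℝ) + 1) + 1 / 4 ≤ 2 ^ (d + 1) - 1 := by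
      have h4 : ((d : ℝ) + 1) ≤ 2 ^ d := by
        have : d + 1 ≤ 2 ^ d := Nat.lt_two_pow_self
        exact_mod_cast this
      rw [pow_succ]
      have h5 : (0 : ℝ) ≤ d := Nat.cast_nonneg d
      linarith
    nlinarith [mul_le_mul_of_nonneg_left h3 h1.le]

variable {G Ω : Type} [Group G] [MulAction G Ω] {M : ℕ} (t : TreeAct G Ω M) [Fintype G]

open scoped Classical in
/-- The number of group elements for which the count changes at a step. -/
noncomputable def Ch (R j : ℕ) : ℕ :=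
  (Finset.univ.filter (fun g : G => Xn t j g ≤ R ∧ Xn t (j + 1) g ≠ Xn t j g)).card

open scoped Classical in
theorem potential [Finite Ω] [Nonempty Ω] [MulAction.IsPretransitive G Ω] (R j : ℕ) :
    (1 / 4) * (1 / 2 : ℝ) ^ R * Ch t R j ≤
      ∑ g, (1 / 2 : ℝ) ^ (Xn t (j + 1) g) - ∑ g, (1 / 2 : ℝ) ^ (Xn t j g) := by
  have h1 := martingale_sum t j (fun g => (1 / 2 : ℝ) ^ (Xn t j g))
    (fun g n hn => by simp only [Xn_mul t g hn])
  have h2 : ∑ g, (-(3 / 4) * (1 / 2 : ℝ) ^ (Xn t j g) * ((Xn t (j + 1) g : ℝ) - Xn t j g) +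
      (if Xn t (j + 1) g ≠ Xn t j g then (1 / 4) * (1 / 2 : ℝ) ^ (Xn t j g) else 0)) ≤
      ∑ g, ((1 / 2 : ℝ) ^ (Xn t (j + 1) g) - (1 / 2 : ℝ) ^ (Xn t j g)) :=
    Finset.sum_le_sum fun g _ => half_ineq _ _
  rw [Finset.sum_add_distrib, Finset.sum_sub_distrib] at h2
  have h3 : ∑ g, (-(3 / 4) * (1 / 2 : ℝ) ^ (Xn t j g) * ((Xn t (j + 1) g : ℝ) - Xn t j g)) = 0 := by
    have : ∀ g : G, (-(3 / 4) * (1 / 2 : ℝ) ^ (Xn t j g) * ((Xn t (j + 1) g : ℝ) - Xn t j g)) =
        -(3 / 4) * ((1 / 2 : ℝ) ^ (Xn t j g) * (Xn t (j + 1) g : ℝ) -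
          (1 / 2 : ℝ) ^ (Xn t j g) * (Xn t j g : ℝ)) := fun g => by ring
    rw [Finset.sum_congr rfl fun g _ => this g, ← Finset.mul_sum, Finset.sum_sub_distrib, h1,
      sub_self, mul_zero]
  rw [h3, zero_add] at h2
  refine le_trans ?_ h2
  have h4 : (Ch t R j : ℝ) = ∑ g, if (Xn t j g ≤ R ∧ Xn t (j + 1) g ≠ Xn t j g) then (1 : ℝ) else 0 := by
    unfold Ch
    rw [Finset.sum_ite, Finset.sum_const_zero, add_zero, Finset.sum_const, nsmul_eq_mul, mul_one]
  rw [h4, Finset.mul_sum]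
  refine Finset.sum_le_sum fun g _ => ?_
  by_cases h5 : Xn t (j + 1) g ≠ Xn t j g
  · rw [if_pos h5]
    by_cases h6 : Xn t j g ≤ R
    · rw [if_pos ⟨h6, h5⟩, mul_one]
      have : (1 / 2 : ℝ) ^ R ≤ (1 / 2) ^ (Xn t j g) :=
        pow_le_pow_of_le_one (by norm_num) (by norm_num) h6
      linarith
    · rw [if_neg (fun h => h6 h.1), mul_zero]
      positivity
  · rw [if_neg h5, if_neg (fun h => h5 h.2), mul_zero]

/-- total number of changes -/
theorem sum_Ch [Finite Ω] [Nonempty Ω] [MulAction.IsPretransitive G Ω] (R J : ℕ) :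
    (1 / 4) * (1 / 2 : ℝ) ^ R * ∑ j ∈ Finset.range J, (Ch t R j : ℝ) ≤ Fintype.card G := by
  have h1 : (1 / 4) * (1 / 2 : ℝ) ^ R * ∑ j ∈ Finset.range J, (Ch t R j : ℝ) ≤
      ∑ g, (1 / 2 : ℝ) ^ (Xn t J g) - ∑ g, (1 / 2 : ℝ) ^ (Xn t 0 g) := by
    induction J with
    | zero => simp
    | succ J ih =>
      rw [Finset.sum_range_succ, mul_add]
      have := potential t R J
      linarith
  refine h1.trans ?_
  have h2 : ∑ g, (1 / 2 : ℝ) ^ (Xn t J g) ≤ ∑ _g : G, (1 : ℝ) :=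
    Finset.sum_le_sum fun g _ => pow_le_one₀ (by norm_num) (by norm_num)
  have h3 : 0 ≤ ∑ g, (1 / 2 : ℝ) ^ (Xn t 0 g) := Finset.sum_nonneg fun g _ => by positivity
  simp only [Finset.sum_const, Finset.card_univ, nsmul_eq_mul, mul_one] at h2
  linarith

/-! ### Probabilities in cosets -/

open scoped Classical in
/-- at least a proportion `c` of the coset `g N m` lies in `A`. -/
def PG (c : ℝ) (A : Set G) (m : ℕ) (g : G) : Prop :=
  c * ((Nf t m).card : ℝ) ≤ (((Nf t m).filter (fun n => g * n ∈ A)).card : ℝ)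

open scoped Classical in
theorem PG_mono {c : ℝ} {A A' : Set G} {m : ℕ} {g : G}
    (h : ∀ n ∈ N t m, g * n ∈ A → g * n ∈ A') (hP : PG t c A m g) : PG t c A' m g := by
  refine hP.trans ?_
  have : ((Nf t m).filter (fun n => g * n ∈ A)).card ≤
      ((Nf t m).filter (fun n => g * n ∈ A')).card := by
    apply Finset.card_le_card
    intro n hn
    rw [Finset.mem_filter] at hn ⊢
    exact ⟨hn.1, h n ((mem_Nf t).1 hn.1) hn.2⟩
  exact_mod_cast this

theorem PG_mono_c {c c' : ℝ} {A : Set G} {m : ℕ} {g : G} (h : c' ≤ c) (hP : PG t c A m g) :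
    PG t c' A m g := by
  refine le_trans ?_ hP
  exact mul_le_mul_of_nonneg_right h (Nat.cast_nonneg _)

open scoped Classical in
theorem PG_one {A : Set G} {m : ℕ} {g : G} (h : ∀ n ∈ N t m, g * n ∈ A) : PG t 1 A m g := by
  unfold PG
  rw [one_mul, Finset.filter_true_of_mem]
  intro n hn
  exact h n ((mem_Nf t).1 hn)

open scoped Classical in
theorem PG_comp {c c' : ℝ} {A B : Set G} {m m' : ℕ} {g : G} (hm : m ≤ m') (hc' : 0 ≤ c')
    (hB : PG t c B m g) (hA : ∀ n ∈ N t m, g * n ∈ B → PG t c' A m' (g * n)) :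
    PG t (c * c') A m g := by
  unfold PG at *
  have h1 := sum_sum_Nf t hm (fun a => if a ∈ A then (1 : ℝ) else 0) g
  have h2 : ∀ (s : Finset G) (k : G), ∑ b ∈ s, (if k * b ∈ A then (1 : ℝ) else 0) =
      ((s.filter (fun n => k * n ∈ A)).card : ℝ) := by
    intro s k
    rw [Finset.sum_ite, Finset.sum_const_zero, add_zero, Finset.sum_const, nsmul_eq_mul, mul_one]
  simp only [h2] at h1
  rw [nsmul_eq_mul] at h1
  have h3 : ∑ a ∈ (Nf t m).filter (fun n => g * n ∈ B), c' * ((Nf t m').card : ℝ) ≤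
      ∑ a ∈ Nf t m, (((Nf t m').filter (fun n => g * a * n ∈ A)).card : ℝ) := by
    refine le_trans (Finset.sum_le_sum (g := fun a =>
      (((Nf t m').filter (fun n => g * a * n ∈ A)).card : ℝ)) fun a ha => ?_) ?_
    · rw [Finset.mem_filter] at ha
      exact hA a ((mem_Nf t).1 ha.1) ha.2
    · exact Finset.sum_le_sum_of_subset_of_nonneg (Finset.filter_subset _ _)
        (fun _ _ _ => Nat.cast_nonneg _)
  rw [h1, Finset.sum_const, nsmul_eq_mul] at h3
  have h4 : (0 : ℝ) < (Nf t m').card := by exact_mod_cast Nf_card_pos t m'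
  have h5 : c * ((Nf t m).card : ℝ) * (c' * ((Nf t m').card : ℝ)) ≤
      ((Nf t m').card : ℝ) * (((Nf t m).filter (fun n => g * n ∈ A)).card : ℝ) :=
    (mul_le_mul_of_nonneg_right hB (mul_nonneg hc' h4.le)).trans h3
  have h6 : ((Nf t m').card : ℝ) * (c * c' * ((Nf t m).card : ℝ)) ≤
      ((Nf t m').card : ℝ) * (((Nf t m).filter (fun n => g * n ∈ A)).card : ℝ) := by
    refine le_trans (le_of_eq ?_) h5
    ring
  exact le_of_mul_le_mul_left h6 h4

/-- trivial first stage -/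
theorem PG_comp_one {c' : ℝ} {A : Set G} {m m' : ℕ} {g : G} (hm : m ≤ m') (hc' : 0 ≤ c')
    (hA : ∀ n ∈ N t m, PG t c' A m' (g * n)) : PG t c' A m g := by
  have := PG_comp t (c := 1) (B := Set.univ) hm hc' (PG_one t fun _ _ => Set.mem_univ _)
    (fun n hn _ => hA n hn)
  rwa [one_mul] at this

end Pool.Agent.Helper5.JO
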