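/-
JO-B (MP_4d96c9_nt): the killing lemma.
-/
import Pool.Agent.Helper5.JO.Tree3

set_option autoImplicit false

namespace Pool.Agent.Helper5.JO

open Pool.Agent.Helper13.JO

section
variable {G Ω : Type} [Group G] [MulAction G Ω] {M : ℕ} (t : TreeAct G Ω M)

/-- `h` does not fix the vertex of level `j + 1` above `x` (for `h` fixing the vertex of level
`j`: it swaps its children). -/
def sw (j : ℕ) (h : G) (x : Ω) : Prop := ¬ (t.r (j + 1)) (h • x) x

theorem sw_class_aux {j : ℕ} (hj : j < M) {h : G} {x y : Ω} (hx : (t.r j) (h • x) x)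
    (hxy : (t.r j) x y) (hs : ¬ sw t j h x) : ¬ sw t j h y := by
  unfold sw at *
  rw [not_not] at *
  by_cases h1 : (t.r (j + 1)) x y
  · have h2 := t.inv (j + 1) h _ _ h1
    exact (t.r (j + 1)).trans ((t.r (j + 1)).symm h2) ((t.r (j + 1)).trans hs h1)
  · have h2 : (t.r j) x (h • y) := (t.r j).trans ((t.r j).symm hx) (t.inv j h _ _ hxy)
    rcases t.two j x y (h • y) hj hxy h2 with h3 | h3 | h3
    · exact absurd h3 h1
    · exfalso
      apply h1
      have h4 : (t.r (j + 1)) (h • x) (h • y) := (t.r (j + 1)).trans hs h3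
      have h5 := t.inv (j + 1) h⁻¹ _ _ h4
      rwa [inv_smul_smul, inv_smul_smul] at h5
    · exact (t.r (j + 1)).symm h3

theorem sw_class {j : ℕ} (hj : j < M) {h : G} {x y : Ω} (hx : (t.r j) (h • x) x)
    (hxy : (t.r j) x y) : sw t j h x ↔ sw t j h y := by
  have hy : (t.r j) (h • y) y := (t.r j).trans ((t.r j).symm (t.inv j h _ _ hxy))
    ((t.r j).trans hx hxy)
  constructor
  · intro h1
    by_contra h2
    exact sw_class_aux t hj hy ((t.r j).symm hxy) h2 h1
  · intro h1
    by_contra h2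
    exact sw_class_aux t hj hx hxy h2 h1

theorem sw_mul {j : ℕ} (hj : j < M) {h1 h2 : G} {x : Ω} (hx1 : (t.r j) (h1 • x) x)
    (hx2 : (t.r j) (h2 • x) x) : sw t j (h1 * h2) x ↔ ¬ (sw t j h1 x ↔ sw t j h2 x) := by
  by_cases hs2 : sw t j h2 x
  · have hs1 : sw t j h1 x ↔ sw t j h1 (h2 • x) := sw_class t hj hx1 ((t.r j).symm hx2)
    by_cases hs : sw t j h1 x
    · have h3 : ¬ sw t j (h1 * h2) x := by
        unfold sw at *
        rw [not_not, mul_smul]
        have h4 : (t.r j) x (h1 • h2 • x) :=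
          (t.r j).trans ((t.r j).symm hx1) ((t.inv j h1 _ _ ((t.r j).symm hx2)))
        rcases t.two j x (h2 • x) (h1 • h2 • x) hj ((t.r j).symm hx2) h4 with h5 | h5 | h5
        · exact absurd ((t.r (j + 1)).symm h5) hs2
        · exact (t.r (j + 1)).symm h5
        · exact absurd ((t.r (j + 1)).symm h5) (hs1.1 hs)
      tauto
    · have h3 : sw t j (h1 * h2) x := by
        have h4 : ¬ sw t j h1 (h2 • x) := fun h => hs (hs1.2 h)
        unfold sw at *
        rw [not_not] at h4
        rw [mul_smul]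
        intro h5
        exact hs2 ((t.r (j + 1)).trans ((t.r (j + 1)).symm h4) h5)
      tauto
  · have h3 : sw t j (h1 * h2) x ↔ sw t j h1 x := by
      unfold sw at *
      rw [not_not] at hs2
      rw [mul_smul]
      have h4 := t.inv (j + 1) h1 _ _ hs2
      constructor
      · intro h5 h6
        exact h5 ((t.r (j + 1)).trans h4 h6)
      · intro h5 h6
        exact h5 ((t.r (j + 1)).trans ((t.r (j + 1)).symm h4) h6)
    tauto

theorem sw_conj {j : ℕ} {h σ : G} {x : Ω} : sw t j (σ * h * σ⁻¹) x ↔ sw t j h (σ⁻¹ • x) := by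
  unfold sw
  rw [mul_smul, mul_smul, not_iff_not]
  constructor
  · intro h1
    have h2 := t.inv (j + 1) σ⁻¹ _ _ h1
    rwa [inv_smul_smul] at h2
  · intro h1
    have h2 := t.inv (j + 1) σ _ _ h1
    rwa [smul_inv_smul] at h2

/-- Elements of `N j` which swap the children of exactly one of the vertices in `C`. -/
theorem exists_single [MulAction.IsPretransitive G Ω] {T j : ℕ} (hK : t.Kill T j)
    (v : Ω) : ∃ h ∈ N t j, sw t j h v ∧ ∀ v', (t.r (j - T)) v v' → sw t j h v' → (t.r j) v v' := by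
  obtain ⟨h0, h1, ⟨u, h2⟩, h3⟩ := hK
  obtain ⟨σ, hσ⟩ := MulAction.exists_smul_eq G u v
  have hσ' : σ⁻¹ • v = u := by rw [← hσ, inv_smul_smul]
  refine ⟨σ * h0 * σ⁻¹, N_conj t h1 σ, ?_, ?_⟩
  · rw [sw_conj, hσ']
    exact h2
  · intro v' hv' hs
    rw [sw_conj] at hs
    have h4 := h3 (σ⁻¹ • v) (σ⁻¹ • v') (by rw [hσ']; exact h2) hs (t.inv _ _ _ _ hv')
    have h5 := t.inv j σ _ _ h4
    rwa [smul_inv_smul, smul_inv_smul] at h5

end

variable {G Ω : Type} [Group G] [MulAction G Ω] {M : ℕ} (t : TreeAct G Ω M) [Fintype G]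

open scoped Classical in
/-- Patterns of swaps are equidistributed. -/
theorem card_pattern {j : ℕ} (hj : j < M) (C : Finset Ω)
    (hC : ∀ v ∈ C, ∃ h ∈ N t j, sw t j h v ∧ ∀ v' ∈ C, v' ≠ v → ¬ sw t j h v') (b : Ω → Prop) :
    (Nf t j).card = 2 ^ C.card *
      ((Nf t j).filter (fun n => ∀ v ∈ C, (sw t j n v ↔ b v))).card := by
  induction C using Finset.induction_on with
  | empty => simp
  | insert v C hv ih =>
    have h1 := ih (fun w hw => by
      obtain ⟨h, hh, hs, hs'⟩ := hC w (Finset.mem_insert_of_mem hw)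
      exact ⟨h, hh, hs, fun v' hv' => hs' v' (Finset.mem_insert_of_mem hv')⟩)
    obtain ⟨h, hh, hs, hs'⟩ := hC v (Finset.mem_insert_self v C)
    have h2 : ((Nf t j).filter (fun n => ∀ w ∈ C, (sw t j n w ↔ b w))).card =
        ((Nf t j).filter (fun n => ∀ w ∈ insert v C, (sw t j n w ↔ b w))).card +
        ((Nf t j).filter (fun n => (∀ w ∈ C, (sw t j n w ↔ b w)) ∧ ¬ (sw t j n v ↔ b v))).card := by
      rw [← Finset.card_filter_add_card_filter_not (s := (Nf t j).filter
        (fun n => ∀ w ∈ C, (sw t j n w ↔ b w))) (fun n => (sw t j n v ↔ b v))]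
      rw [Finset.filter_filter, Finset.filter_filter]
      congr 2
      apply Finset.filter_congr
      intro n _
      simp only [Finset.forall_mem_insert]
      tauto
    have h3 : ((Nf t j).filter
        (fun n => (∀ w ∈ C, (sw t j n w ↔ b w)) ∧ ¬ (sw t j n v ↔ b v))).card =
        ((Nf t j).filter (fun n => ∀ w ∈ insert v C, (sw t j n w ↔ b w))).card := by
      have hfix : ∀ n ∈ N t j, ∀ w, (sw t j (n * h) w ↔ ¬ (sw t j n w ↔ sw t j h w)) :=
        fun n hn w => sw_mul t hj (hn w) (hh w)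
      have hfix' : ∀ n ∈ N t j, ∀ w, (sw t j (n * h⁻¹) w ↔ ¬ (sw t j n w ↔ sw t j h w)) := by
        intro n hn w
        have h4 := hfix (n * h⁻¹) ((N t j).mul_mem hn ((N t j).inv_mem hh)) w
        rw [inv_mul_cancel_right] at h4
        tauto
      refine Finset.card_bij' (fun n _ => n * h) (fun n _ => n * h⁻¹) ?_ ?_ ?_ ?_
      · intro n hn
        simp only [Finset.mem_filter, mem_Nf] at hn ⊢
        refine ⟨(N t j).mul_mem hn.1 hh, fun w hw => ?_⟩
        rw [hfix n hn.1 w]
        rcases Finset.mem_insert.1 hw with rfl | hw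
        · have := hn.2.2
          tauto
        · have h5 := hs' w (Finset.mem_insert_of_mem hw) (fun h => hv (h ▸ hw))
          have h6 := hn.2.1 w hw
          tauto
      · intro n hn
        simp only [Finset.mem_filter, mem_Nf] at hn ⊢
        refine ⟨(N t j).mul_mem hn.1 ((N t j).inv_mem hh), fun w hw => ?_, ?_⟩
        · rw [hfix' n hn.1 w]
          have h5 := hs' w (Finset.mem_insert_of_mem hw) (fun h => hv (h ▸ hw))
          have h6 := hn.2 w (Finset.mem_insert_of_mem hw)
          tauto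
        · rw [hfix' n hn.1 v]
          have h6 := hn.2 v (Finset.mem_insert_self _ _)
          tauto
      · intro n _; simp
      · intro n _; simp
    rw [h1, h2, h3, Finset.card_insert_of_notMem hv, pow_succ]
    ring

open scoped Classical in
/-- The killing lemma. -/
theorem killing [Finite Ω] [MulAction.IsPretransitive G Ω] {T T' j : ℕ} (hj : j < M)
    (hT : T ≤ T') (hK : t.Kill T' j) (x0 : Ω) (g : G) (R : ℕ) (hR : Xn t j g ≤ R) :
    PG t ((1 / 2) ^ R) {g' | ∀ x ∈ cls t (j - T) x0, g' • x ∉ cls t (j + 1) x} j g := by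
  set W : Set Ω := {x | x ∈ cls t (j - T) x0 ∧ g • x ∈ cls t j x} with hW
  obtain ⟨C0, hC0W, hC0⟩ := Set.exists_subset_bijOn W (Quotient.mk (t.r j))
  have hC0fin : C0.Finite := Set.toFinite _
  set C := hC0fin.toFinset with hC
  have hmem : ∀ v, v ∈ C ↔ v ∈ C0 := fun v => by rw [hC, Set.Finite.mem_toFinset]
  have hdist : ∀ v ∈ C, ∀ v' ∈ C, (t.r j) v v' → v = v' := by
    intro v hv v' hv' h
    exact hC0.injOn ((hmem v).1 hv) ((hmem v').1 hv') (Quotient.sound h)
  -- size of C
  have hcard : C.card ≤ R := by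
    refine le_trans ?_ hR
    unfold Xn F
    rw [← Set.ncard_coe_finset]
    have hinj : Set.InjOn (cls t j) (C : Set Ω) := by
      intro v hv v' hv' h
      apply hdist v hv v' hv'
      have : v' ∈ cls t j v := (cls_eq_iff t).1 h
      exact (t.r j).symm (cls_r t this)
    rw [← hinj.ncard_image]
    apply Set.ncard_le_ncard _ (Set.toFinite _)
    apply Set.image_mono
    intro v hv
    exact (hC0W ((hmem v).1 hv)).2
  obtain ⟨b, hb⟩ : ∃ b : Ω → Prop, ∀ v, b v ↔ ¬ sw t j g v := ⟨_, fun _ => Iff.rfl⟩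
  have hpat := card_pattern t hj C (fun v hv => by
    obtain ⟨h, hh, hs, hs'⟩ := exists_single t hK v
    refine ⟨h, hh, hs, fun v' hv' hne hsv => hne ?_⟩
    have h1 : (t.r (j - T')) v v' := by
      apply anti_le t (Nat.sub_le_sub_left hT j)
      have h2 := cls_r t (hC0W ((hmem v).1 hv)).1
      have h3 := cls_r t (hC0W ((hmem v').1 hv')).1
      exact (t.r _).trans h2 ((t.r _).symm h3)
    exact (hdist v hv v' hv' (hs' v' h1 hsv)).symm) b
  unfold PG
  have h1 : ((Nf t j).filter (fun n => ∀ v ∈ C, (sw t j n v ↔ b v))).card ≤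
      ((Nf t j).filter (fun n => g * n ∈ {g' : G | ∀ x ∈ cls t (j - T) x0,
        g' • x ∉ cls t (j + 1) x})).card := by
    apply Finset.card_le_card
    intro n hn
    rw [Finset.mem_filter] at hn ⊢
    refine ⟨hn.1, ?_⟩
    intro x hx hgx
    have hn' := (mem_Nf t).1 hn.1
    have h2 : x ∈ Fx t j g := by
      rw [← Fx_mul t g hn']
      exact cls_anti t (Nat.le_succ j) _ hgx
    have h3 : x ∈ W := ⟨hx, h2⟩
    obtain ⟨v, hv, hvx⟩ := hC0.surjOn ⟨x, h3, rfl⟩
    have hvx' : (t.r j) v x := Quotient.exact hvx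
    have hgv : (t.r j) (g • v) v := cls_r t (hC0W hv).2
    have h4 : sw t j (g * n) v := by
      rw [sw_mul t hj hgv (hn' v)]
      have := hn.2 v ((hmem v).2 hv)
      have := hb v
      tauto
    have h5 : sw t j (g * n) x := by
      rw [← sw_class t hj (x := v) (y := x) _ hvx']
      · exact h4
      · rw [mul_smul]
        exact (t.r j).trans (t.inv j g _ _ (hn' v)) hgv
    exact h5 (cls_r t hgx)
  have h2 : ((Nf t j).card : ℝ) = 2 ^ C.card *
      (((Nf t j).filter (fun n => ∀ v ∈ C, (sw t j n v ↔ b v))).card : ℝ) := by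
    exact_mod_cast hpat
  have h3 : (((Nf t j).filter (fun n => ∀ v ∈ C, (sw t j n v ↔ b v))).card : ℝ) ≤
      (((Nf t j).filter (fun n => g * n ∈ {g' : G | ∀ x ∈ cls t (j - T) x0,
        g' • x ∉ cls t (j + 1) x})).card : ℝ) := by exact_mod_cast h1
  refine le_trans ?_ h3
  rw [h2, ← mul_assoc]
  refine mul_le_of_le_one_left (Nat.cast_nonneg _) ?_
  have h4 : (2 : ℝ) ^ C.card ≤ 2 ^ R := pow_le_pow_right₀ (by norm_num) hcard
  calc (1 / 2 : ℝ) ^ R * 2 ^ C.card ≤ (1 / 2) ^ R * 2 ^ R := by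
        exact mul_le_mul_of_nonneg_left h4 (by positivity)
    _ = 1 := by rw [← mul_pow]; norm_num

end Pool.Agent.Helper5.JO
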