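/-
JO-B (MP_4d96c9_nt): the hierarchy of clusters.
-/
import Pool.Agent.Helper5.JO.Tree4

set_option autoImplicit false

namespace Pool.Agent.Helper5.JO

open Pool.Agent.Helper13.JO

section
variable {G Ω : Type} [Group G] [MulAction G Ω] {M : ℕ} (t : TreeAct G Ω M)

/-- the number of fixed orbits changed, or there are few families. -/
def Aev (r i m e : ℕ) : Set G :=
  {g | (∃ j, m ≤ j ∧ j ≤ e ∧ Xn t j g ≠ r) ∨ 2 ^ i * F t m e g ≤ r}

theorem Aev_mono [Finite Ω] {r i m e e' : ℕ} (h : e ≤ e') {g : G} (hg : g ∈ Aev t r i m e) :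
    g ∈ Aev t r i m e' := by
  rcases hg with ⟨j, h1, h2, h3⟩ | h1
  · exact Or.inl ⟨j, h1, h2.trans h, h3⟩
  · exact Or.inr ((Nat.mul_le_mul_left _ (F_anti t h g)).trans h1)

theorem Aev_mul {r i m e : ℕ} {g n : G} (hn : n ∈ N t e) (hg : g ∈ Aev t r i m e) :
    g * n ∈ Aev t r i m e := by
  rcases hg with ⟨j, h1, h2, h3⟩ | h1
  · refine Or.inl ⟨j, h1, h2, ?_⟩
    rwa [Xn_mul t g (N_anti t h2 hn)]
  · refine Or.inr ?_
    rwa [F_mul t g hn]

theorem biUnion_cls {m m'' : ℕ} (h : m ≤ m'') (x : Ω) :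
    ⋃ y ∈ cls t m'' x, cls t m y = cls t m x := by
  ext z
  simp only [Set.mem_iUnion, exists_prop]
  constructor
  · rintro ⟨y, hy, hz⟩
    exact cls_trans t (cls_anti t h x hy) hz
  · intro hz
    exact ⟨x, mem_cls_self t _ _, hz⟩

/-- If there are less than twice as many clusters as families, some family has only one cluster. -/
theorem exists_single_cluster [Finite Ω] {m m'' j : ℕ} (h : m ≤ m'') (g : G)
    (hlt : F t m'' j g < 2 * F t m j g) :
    ∃ x0 ∈ Fx t j g, ∀ y ∈ Fx t j g, y ∈ cls t m x0 → y ∈ cls t m'' x0 := by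
  classical
  have := Fintype.ofFinite Ω
  have hfin1 : (cls t m'' '' Fx t j g).Finite := Set.toFinite _
  have hfin2 : (cls t m '' Fx t j g).Finite := Set.toFinite _
  have h1 : hfin1.toFinset.card < hfin2.toFinset.card * 2 := by
    rw [← Set.ncard_eq_toFinset_card _ hfin1, ← Set.ncard_eq_toFinset_card _ hfin2]
    unfold F at hlt
    omega
  obtain ⟨O, hO, hO2⟩ := Finset.exists_card_fiber_lt_of_card_lt_mul
    (f := fun S : Set Ω => ⋃ y ∈ S, cls t m y) h1
  rw [Set.Finite.mem_toFinset] at hO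
  obtain ⟨x0, hx0, rfl⟩ := hO
  refine ⟨x0, hx0, fun y hy hyx => ?_⟩
  have h2 : (hfin1.toFinset.filter (fun S : Set Ω => ⋃ y ∈ S, cls t m y = cls t m x0)).card ≤ 1 := by
    omega
  rw [Finset.card_le_one] at h2
  have h3 := h2 (cls t m'' x0) (by
    rw [Finset.mem_filter, Set.Finite.mem_toFinset]
    exact ⟨⟨x0, hx0, rfl⟩, biUnion_cls t h x0⟩) (cls t m'' y) (by
    rw [Finset.mem_filter, Set.Finite.mem_toFinset]
    refine ⟨⟨y, hy, rfl⟩, ?_⟩
    rw [biUnion_cls t h y]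
    exact (cls_eq t hyx).symm)
  exact (cls_eq_iff t).1 h3

/-- Killing the only cluster of a family decreases the number of families. -/
theorem F_decrease [Finite Ω] {m m'' j : ℕ} {g n : G} (hn : n ∈ N t j) {x0 : Ω}
    (hx0 : x0 ∈ Fx t j g) (hsing : ∀ y ∈ Fx t j g, y ∈ cls t m x0 → y ∈ cls t m'' x0)
    (hkill : ∀ x ∈ cls t m'' x0, (g * n) • x ∉ cls t (j + 1) x) :
    F t m (j + 1) (g * n) < F t m j g := by
  apply Set.ncard_lt_ncard _ (Set.toFinite _)
  have h1 : Fx t (j + 1) (g * n) ⊆ Fx t j g := by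
    rw [← Fx_mul t g hn]
    exact Fx_anti t (Nat.le_succ j) _
  refine (Set.ssubset_iff_of_subset (Set.image_mono h1)).2 ⟨cls t m x0, ⟨x0, hx0, rfl⟩, ?_⟩
  rintro ⟨y, hy, hyx⟩
  have h2 : y ∈ cls t m x0 := (cls_eq_iff t).1 hyx.symm
  exact hkill y (hsing y (h1 hy) h2) hy

end

/-- The claim of the hierarchy. -/
def HC (K : ℕ → ℕ → Prop) (r i T : ℕ) (c : ℝ) (m1 : ℕ) : Prop :=
  ∀ (M : ℕ) (G Ω : Type) [Group G] [Fintype G] [Finite Ω] [MulAction G Ω]
    [MulAction.IsPretransitive G Ω] (t : TreeAct G Ω M),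
    (∀ T m, m < M → K T m → t.Kill T m) → ∀ (m : ℕ) (g : G), m1 ≤ m → m + T ≤ M →
      Xn t m g = r → PG t c (Aev t r i m (m + T)) m g

theorem HC_zero (K : ℕ → ℕ → Prop) (r : ℕ) : HC K r 0 0 1 0 := by
  intro M G Ω _ _ _ _ _ t _ m g _ _ hg
  apply PG_one
  intro n hn
  refine Or.inr ?_
  rw [add_zero, pow_zero, one_mul]
  exact (Xn_mul t g hn).le.trans hg.le

theorem round {K : ℕ → ℕ → Prop} {r i T D m0 m1 : ℕ} {c : ℝ} (hc : 0 < c) (hc1 : c ≤ 1)
    (hD : ∀ m, m0 ≤ m → ∃ j, m ≤ j ∧ j < m + D ∧ K T j) (hHC : HC K r i T c m1)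
    {M : ℕ} {G Ω : Type} [Group G] [Fintype G] [Finite Ω] [MulAction G Ω]
    [MulAction.IsPretransitive G Ω] (t : TreeAct G Ω M)
    (hK : ∀ T m, m < M → K T m → t.Kill T m) (m : ℕ) (hm0 : m0 ≤ m) (hm1 : m1 ≤ m) (s : ℕ) :
    ∀ (m' : ℕ) (g : G), m ≤ m' → m' + s * (T + D) ≤ M →
      (F t m m' g ≤ s ∨ g ∈ Aev t r (i + 1) m m') →
      PG t ((c * (1 / 2) ^ r) ^ s) (Aev t r (i + 1) m (m' + s * (T + D))) m' g := by
  have hc0 : 0 ≤ c * (1 / 2 : ℝ) ^ r := by positivity
  have hc01 : c * (1 / 2 : ℝ) ^ r ≤ 1 := by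
    have h1 : (1 / 2 : ℝ) ^ r ≤ 1 := pow_le_one₀ (by norm_num) (by norm_num)
    have h2 : (0 : ℝ) ≤ (1 / 2) ^ r := by positivity
    calc c * (1 / 2 : ℝ) ^ r ≤ 1 * 1 := mul_le_mul hc1 h1 h2 (by norm_num)
      _ = 1 := by norm_num
  induction s with
  | zero =>
    intro m' g hm' _ hg
    rw [pow_zero]
    apply PG_one
    intro n hn
    have hg' : g ∈ Aev t r (i + 1) m m' := by
      rcases hg with h | h
      · refine Or.inr ?_
        have : F t m m' g = 0 := by omega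
        rw [this, mul_zero]
        exact Nat.zero_le _
      · exact h
    exact Aev_mono t (by omega) (Aev_mul t hn hg')
  | succ s ih =>
    intro m' g hm' hM hg
    by_cases hgA : g ∈ Aev t r (i + 1) m m'
    · refine PG_mono_c t (pow_le_one₀ hc0 hc01) (PG_one t ?_)
      intro n hn
      exact Aev_mono t (by omega) (Aev_mul t hn hgA)
    · have hF : F t m m' g ≤ s + 1 := hg.resolve_right hgA
      obtain ⟨j, hj1, hj2, hKj⟩ := hD (m' + T) (by omega)
      have hsT : (s + 1) * (T + D) = s * (T + D) + (T + D) := by ring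
      have hjM : j < M := by omega
      obtain ⟨m'', hm''⟩ : ∃ m'', m'' + T = j := ⟨j - T, by omega⟩
      have hm''' : j - T = m'' := by omega
      have hmm : m' ≤ m'' := by omega
      set B1 : Set G := {g' | g' ∈ Aev t r (i + 1) m j ∨
        (Xn t j g' = r ∧ F t m'' j g' < 2 * F t m j g' ∧ F t m j g' ≤ s + 1)} with hB1
      set B2 : Set G := {g' | g' ∈ Aev t r (i + 1) m (j + 1) ∨ F t m (j + 1) g' ≤ s} with hB2
      -- Step A
      have hA : PG t c B1 m' g := by
        refine PG_comp_one t hmm hc.le fun n hn => ?_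
        by_cases hX : Xn t m'' (g * n) = r
        · have h1 := hHC M G Ω t hK m'' (g * n) (by omega) (by omega) hX
          rw [hm''] at h1
          refine PG_mono t ?_ h1
          intro n' hn' h2
          have h3 : F t m j (g * n * n') ≤ s + 1 := by
            refine (F_anti t (by omega : m' ≤ j) _).trans ?_
            rw [F_mul t (g * n) (N_anti t hmm hn'), F_mul t g hn]
            exact hF
          rcases h2 with ⟨j', h4, h5, h6⟩ | h2
          · exact Or.inl (Or.inl ⟨j', by omega, h5, h6⟩)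
          · by_cases h7 : Xn t j (g * n * n') = r
            · by_cases h8 : 2 ^ (i + 1) * F t m j (g * n * n') ≤ r
              · exact Or.inl (Or.inr h8)
              · refine Or.inr ⟨h7, ?_, h3⟩
                push Not at h8
                have h9 := lt_of_le_of_lt h2 h8
                rw [pow_succ, mul_assoc (2 ^ i) 2] at h9
                exact Nat.lt_of_mul_lt_mul_left h9
            · exact Or.inl (Or.inl ⟨j, by omega, le_rfl, h7⟩)
        · refine PG_mono_c t hc1 (PG_one t ?_)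
          intro n' hn'
          refine Or.inl (Or.inl ⟨m'', by omega, by omega, ?_⟩)
          rwa [Xn_mul t _ hn']
      -- Step B
      have hB : ∀ g1 ∈ B1, PG t ((1 / 2) ^ r) B2 j g1 := by
        rintro g1 (h1 | ⟨h1, h2, h3⟩)
        · refine PG_mono_c t (pow_le_one₀ (by norm_num) (by norm_num)) (PG_one t ?_)
          intro n hn
          exact Or.inl (Aev_mono t (by omega) (Aev_mul t hn h1))
        · obtain ⟨x0, hx0, hsing⟩ := exists_single_cluster t (by omega : m ≤ m'') g1 h2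
          have h4 := killing t hjM le_rfl (hK T j hjM hKj) x0 g1 r h1.le
          refine PG_mono t ?_ h4
          intro n hn h5
          rw [hm'''] at h5
          have h6 := F_decrease t hn hx0 hsing h5
          exact Or.inr (by omega)
      -- Step C
      have hC : ∀ g2 ∈ B2, PG t ((c * (1 / 2) ^ r) ^ s)
          (Aev t r (i + 1) m (m' + (s + 1) * (T + D))) (j + 1) g2 := by
        intro g2 hg2
        have h1 := ih (j + 1) g2 (by omega) (by omega) hg2.symm
        exact PG_mono t (fun n _ h => Aev_mono t (by omega) h) h1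
      have hBC : ∀ g1 ∈ B1, PG t ((1 / 2) ^ r * (c * (1 / 2) ^ r) ^ s)
          (Aev t r (i + 1) m (m' + (s + 1) * (T + D))) j g1 := fun g1 hg1 =>
        PG_comp t (Nat.le_succ j) (pow_nonneg hc0 s) (hB g1 hg1) (fun n _ h => hC _ h)
      have hABC := PG_comp t (by omega : m' ≤ j) (by positivity) hA (fun n _ h => hBC _ h)
      have he : (c * (1 / 2 : ℝ) ^ r) ^ (s + 1) = c * ((1 / 2) ^ r * (c * (1 / 2) ^ r) ^ s) := by
        rw [pow_succ]; ring
      rw [he]
      exact hABC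

theorem HC_all {K : ℕ → ℕ → Prop}
    (hK : ∀ T, ∃ D m0, ∀ m, m0 ≤ m → ∃ j, m ≤ j ∧ j < m + D ∧ K T j) (r i : ℕ) :
    ∃ (T : ℕ) (c : ℝ) (m1 : ℕ), 0 < c ∧ c ≤ 1 ∧ HC K r i T c m1 := by
  induction i with
  | zero => exact ⟨0, 1, 0, one_pos, le_rfl, HC_zero K r⟩
  | succ i ih =>
    obtain ⟨T, c, m1, hc, hc1, hHC⟩ := ih
    obtain ⟨D, m0, hD⟩ := hK T
    have hc0 : 0 < c * (1 / 2 : ℝ) ^ r := by positivity
    have hc01 : c * (1 / 2 : ℝ) ^ r ≤ 1 := by
      have h1 : (1 / 2 : ℝ) ^ r ≤ 1 := pow_le_one₀ (by norm_num) (by norm_num)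
      have h2 : (0 : ℝ) ≤ (1 / 2) ^ r := by positivity
      calc c * (1 / 2 : ℝ) ^ r ≤ 1 * 1 := mul_le_mul hc1 h1 h2 (by norm_num)
        _ = 1 := by norm_num
    refine ⟨r * (T + D), (c * (1 / 2) ^ r) ^ r, max m0 m1, pow_pos hc0 r,
      pow_le_one₀ hc0.le hc01, ?_⟩
    intro M G Ω _ _ _ _ _ t ht m g hm hM hg
    exact round hc hc1 hD hHC t ht m (le_trans (le_max_left _ _) hm)
      (le_trans (le_max_right _ _) hm) r m g le_rfl hM (Or.inl hg.le)

/-- A change happens with positive probability. -/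
def CH (K : ℕ → ℕ → Prop) (R T : ℕ) (c : ℝ) (m1 : ℕ) : Prop :=
  ∀ (M : ℕ) (G Ω : Type) [Group G] [Fintype G] [Finite Ω] [MulAction G Ω]
    [MulAction.IsPretransitive G Ω] (t : TreeAct G Ω M),
    (∀ T m, m < M → K T m → t.Kill T m) → ∀ (m : ℕ) (g : G), m1 ≤ m → m + T ≤ M →
      1 ≤ Xn t m g → Xn t m g ≤ R →
      PG t c {g' | ∃ j, m ≤ j ∧ j ≤ m + T ∧ Xn t j g' ≠ Xn t m g'} m g

theorem CH_all {K : ℕ → ℕ → Prop}
    (hK : ∀ T, ∃ D m0, ∀ m, m0 ≤ m → ∃ j, m ≤ j ∧ j < m + D ∧ K T j) (R : ℕ) :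
    ∃ (T : ℕ) (c : ℝ) (m1 : ℕ), 0 < c ∧ c ≤ 1 ∧ CH K R T c m1 := by
  induction R with
  | zero =>
    refine ⟨0, 1, 0, one_pos, le_rfl, ?_⟩
    intro M G Ω _ _ _ _ _ t _ m g _ _ h1 h2
    omega
  | succ R ih =>
    obtain ⟨T, c, m1, hc, hc1, hCH⟩ := ih
    obtain ⟨T', c', m1', hc', hc1', hHC⟩ := HC_all hK (R + 1) (R + 1)
    refine ⟨max T T', min c c', max m1 m1', lt_min hc hc', (min_le_left _ _).trans hc1, ?_⟩
    intro M G Ω _ _ _ _ _ t ht m g hm hM h1 h2
    have hT1 := le_max_left T T'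
    have hT2 := le_max_right T T'
    have hm1 := le_max_left m1 m1'
    have hm2 := le_max_right m1 m1'
    by_cases h3 : Xn t m g ≤ R
    · have h4 := hCH M G Ω t ht m g (by omega) (by omega) h1 h3
      refine PG_mono_c t (min_le_left _ _) (PG_mono t ?_ h4)
      rintro n _ ⟨j, h5, h6, h7⟩
      exact ⟨j, h5, by omega, h7⟩
    · have h3' : Xn t m g = R + 1 := by omega
      have h4 := hHC M G Ω t ht m g (by omega) (by omega) h3'
      refine PG_mono_c t (min_le_right _ _) (PG_mono t ?_ h4)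
      intro n hn h5
      have h6 : Xn t m (g * n) = R + 1 := by rw [Xn_mul t g hn, h3']
      rcases h5 with ⟨j, h7, h8, h9⟩ | h5
      · exact ⟨j, h7, by omega, by rw [h6]; exact h9⟩
      · refine ⟨m + T', by omega, by omega, ?_⟩
        rw [h6]
        have h7 : F t m (m + T') (g * n) = 0 := by
          by_contra h8
          have h9 : 2 ^ (R + 1) * 1 ≤ 2 ^ (R + 1) * F t m (m + T') (g * n) :=
            Nat.mul_le_mul_left _ (Nat.one_le_iff_ne_zero.2 h8)
          have h10 : R + 1 < 2 ^ (R + 1) := Nat.lt_two_pow_self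
          omega
        rw [F_eq_zero] at h7
        have h8 : Xn t (m + T') (g * n) = 0 := (F_eq_zero t).2 h7
        omega

end Pool.Agent.Helper5.JO
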