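/-
JO-B (MP_4d96c9_nt): the fixed point proportion of tall trees is small.
-/
import Pool.Agent.Helper5.JO.Tree5

set_option autoImplicit false

namespace Pool.Agent.Helper5.JO

open Pool.Agent.Helper13.JO

variable {G Ω : Type} [Group G] [MulAction G Ω] {M : ℕ} (t : TreeAct G Ω M) [Fintype G]

omit [Fintype G] in
theorem mem_Fx_top {g : G} {x : Ω} : x ∈ Fx t M g ↔ g • x = x := by
  rw [mem_Fx]
  constructor
  · exact cls_top t
  · intro h
    rw [h]
    exact mem_cls_self t M x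

/-- one level of a window -/
theorem exists_step (a T R : ℕ) (f : ℕ → ℕ) (h0 : f a ≤ R)
    (h : ∃ j, a ≤ j ∧ j ≤ a + T ∧ f j ≠ f a) :
    ∃ j ∈ Finset.Ico a (a + T), f j ≤ R ∧ f (j + 1) ≠ f j := by
  by_contra hcon
  push Not at hcon
  have h1 : ∀ d, d ≤ T → f (a + d) = f a := by
    intro d
    induction d with
    | zero => intro _; rfl
    | succ d ih =>
      intro hd
      have h2 := ih (by omega)
      rw [← h2]
      exact hcon (a + d) (Finset.mem_Ico.2 ⟨by omega, by omega⟩) (by rw [h2]; exact h0)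
  obtain ⟨j, h2, h3, h4⟩ := h
  apply h4
  have := h1 (j - a) (by omega)
  rwa [Nat.add_sub_cancel' h2] at this

open scoped Classical in
theorem window [Finite Ω] [MulAction.IsPretransitive G Ω] {c : ℝ} (hc : 0 ≤ c)
    (a T R : ℕ)
    (h : ∀ g, 1 ≤ Xn t a g → Xn t a g ≤ R →
      PG t c {g' | ∃ j, a ≤ j ∧ j ≤ a + T ∧ Xn t j g' ≠ Xn t a g'} a g) :
    c * ((Finset.univ.filter (fun g : G => 1 ≤ Xn t a g ∧ Xn t a g ≤ R)).card : ℝ) ≤
      ∑ j ∈ Finset.Ico a (a + T), (Ch t R j : ℝ) := by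
  obtain ⟨B, hB⟩ : ∃ B : Set G, ∀ g, g ∈ B ↔ (1 ≤ Xn t a g ∧ Xn t a g ≤ R) :=
    ⟨{g | 1 ≤ Xn t a g ∧ Xn t a g ≤ R}, fun _ => Iff.rfl⟩
  obtain ⟨A, hA⟩ : ∃ A : Set G, ∀ g, g ∈ A ↔
      (Xn t a g ≤ R ∧ ∃ j, a ≤ j ∧ j ≤ a + T ∧ Xn t j g ≠ Xn t a g) :=
    ⟨{g | Xn t a g ≤ R ∧ ∃ j, a ≤ j ∧ j ≤ a + T ∧ Xn t j g ≠ Xn t a g}, fun _ => Iff.rfl⟩
  have hcard : (0 : ℝ) < (Nf t 0).card := by exact_mod_cast Nf_card_pos t 0
  have h1 : PG t ((((Nf t 0).filter (fun n => 1 * n ∈ B)).card : ℝ) / (Nf t 0).card) B 0 1 := by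
    unfold PG
    rw [div_mul_cancel₀ _ hcard.ne']
  have h2 := PG_comp t (A := A) (Nat.zero_le a) hc h1 (fun n _ hn => by
    rw [one_mul] at hn ⊢
    rw [hB] at hn
    refine PG_mono t ?_ (h n hn.1 hn.2)
    intro n' hn' h3
    rw [hA]
    exact ⟨by rw [Xn_mul t n hn']; exact hn.2, h3⟩)
  unfold PG at h2
  have h3 : (((Nf t 0).filter (fun n => 1 * n ∈ B)).card : ℝ) / (Nf t 0).card * c *
      ((Nf t 0).card : ℝ) = c * (((Nf t 0).filter (fun n => 1 * n ∈ B)).card : ℝ) := by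
    field_simp
  rw [h3] at h2
  have h4 : ((Nf t 0).filter (fun n => 1 * n ∈ B)) =
      (Finset.univ.filter (fun g : G => 1 ≤ Xn t a g ∧ Xn t a g ≤ R)) := by
    rw [Nf_zero]
    apply Finset.filter_congr
    intro g _
    rw [one_mul]
    exact hB g
  rw [h4] at h2
  refine h2.trans ?_
  have h5 : ((Nf t 0).filter (fun n => 1 * n ∈ A)) ⊆ (Finset.Ico a (a + T)).biUnion
      (fun j => Finset.univ.filter (fun g : G => Xn t j g ≤ R ∧ Xn t (j + 1) g ≠ Xn t j g)) := by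
    intro g hg
    rw [Finset.mem_filter, one_mul, hA] at hg
    obtain ⟨j, hj, h6⟩ := exists_step a T R (fun j => Xn t j g) hg.2.1 hg.2.2
    rw [Finset.mem_biUnion]
    exact ⟨j, hj, Finset.mem_filter.2 ⟨Finset.mem_univ _, h6⟩⟩
  have h6 := (Finset.card_le_card h5).trans Finset.card_biUnion_le
  have h7 : ((Nf t 0).filter (fun n => 1 * n ∈ A)).card ≤
      ∑ j ∈ Finset.Ico a (a + T), Ch t R j := h6
  exact_mod_cast h7

open scoped Classical in
/-- The main estimate. -/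
theorem main_estimate [Finite Ω] [Nonempty Ω] [MulAction.IsPretransitive G Ω] {c ε : ℝ}
    (hc : 0 < c) (hε : 0 < ε) (T R Kw : ℕ) (a : ℕ → ℕ) (ha : ∀ k, a k + T ≤ a (k + 1))
    (haM : a Kw ≤ M)
    (h : ∀ k < Kw, ∀ g, 1 ≤ Xn t (a k) g → Xn t (a k) g ≤ R →
      PG t c {g' | ∃ j, a k ≤ j ∧ j ≤ a k + T ∧ Xn t j g' ≠ Xn t (a k) g'} (a k) g)
    (hR : 2 ≤ ε * (R + 1)) (hKw : 8 * 2 ^ R < Kw * (c * ε)) :
    ((Finset.univ.filter (fun g : G => ∃ x : Ω, g • x = x)).card : ℝ) ≤ ε * Fintype.card G := by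
  by_contra hcon
  push Not at hcon
  have hG : (0 : ℝ) < Fintype.card G := by exact_mod_cast Fintype.card_pos
  have hamono : Monotone a := monotone_nat_of_le_succ fun k => by have := ha k; omega
  -- every level
  have h1 : ∀ k < Kw, ε / 2 * Fintype.card G ≤
      ((Finset.univ.filter (fun g : G => 1 ≤ Xn t (a k) g ∧ Xn t (a k) g ≤ R)).card : ℝ) := by
    intro k hk
    have hakM : a k ≤ M := (hamono hk.le).trans haM
    have h2 : (Finset.univ.filter (fun g : G => ∃ x : Ω, g • x = x)) ⊆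
        (Finset.univ.filter (fun g : G => 1 ≤ Xn t (a k) g ∧ Xn t (a k) g ≤ R)) ∪
        (Finset.univ.filter (fun g : G => R + 1 ≤ Xn t (a k) g)) := by
      intro g hg
      rw [Finset.mem_filter] at hg
      obtain ⟨x, hx⟩ := hg.2
      have h3 : x ∈ Fx t (a k) g := Fx_anti t hakM g ((mem_Fx_top t).2 hx)
      have h4 : Xn t (a k) g ≠ 0 := by
        intro h5
        have := (F_eq_zero t).1 h5
        rw [this] at h3
        exact h3
      rw [Finset.mem_union, Finset.mem_filter, Finset.mem_filter]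
      by_cases h5 : Xn t (a k) g ≤ R
      · exact Or.inl ⟨Finset.mem_univ _, by omega, h5⟩
      · exact Or.inr ⟨Finset.mem_univ _, by omega⟩
    have h3 := (Finset.card_le_card h2).trans (Finset.card_union_le _ _)
    have h4 : ((R : ℝ) + 1) *
        ((Finset.univ.filter (fun g : G => R + 1 ≤ Xn t (a k) g)).card : ℝ) ≤ Fintype.card G := by
      rw [← sum_Xn t (a k)]
      have h5 : ((R : ℝ) + 1) *
          ((Finset.univ.filter (fun g : G => R + 1 ≤ Xn t (a k) g)).card : ℝ) =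
          ∑ g ∈ Finset.univ.filter (fun g : G => R + 1 ≤ Xn t (a k) g), ((R : ℝ) + 1) := by
        rw [Finset.sum_const, nsmul_eq_mul]; ring
      rw [h5]
      refine (Finset.sum_le_sum (g := fun g => (Xn t (a k) g : ℝ)) fun g hg => ?_).trans
        (Finset.sum_le_sum_of_subset_of_nonneg (Finset.filter_subset _ _)
          fun _ _ _ => Nat.cast_nonneg _)
      rw [Finset.mem_filter] at hg
      exact_mod_cast hg.2
    have h5 : ((Finset.univ.filter (fun g : G => ∃ x : Ω, g • x = x)).card : ℝ) ≤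
        ((Finset.univ.filter (fun g : G => 1 ≤ Xn t (a k) g ∧ Xn t (a k) g ≤ R)).card : ℝ) +
        ((Finset.univ.filter (fun g : G => R + 1 ≤ Xn t (a k) g)).card : ℝ) := by
      exact_mod_cast h3
    have h6 : ((Finset.univ.filter (fun g : G => R + 1 ≤ Xn t (a k) g)).card : ℝ) ≤
        ε / 2 * Fintype.card G := by
      have hq : (0 : ℝ) ≤ ((Finset.univ.filter (fun g : G => R + 1 ≤ Xn t (a k) g)).card : ℝ) :=
        Nat.cast_nonneg _
      nlinarith [mul_le_mul_of_nonneg_left h4 (by positivity : 0 ≤ ε / 2),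
        mul_le_mul_of_nonneg_right hR hq]
    linarith
  -- sum over windows
  have h2 : ∀ K ≤ Kw, (K : ℝ) * (c * (ε / 2 * Fintype.card G)) ≤
      ∑ j ∈ Finset.range (a K), (Ch t R j : ℝ) := by
    intro K
    induction K with
    | zero =>
      intro _
      simp only [Nat.cast_zero, zero_mul]
      exact Finset.sum_nonneg fun _ _ => Nat.cast_nonneg _
    | succ K ih =>
      intro hK
      have h3 := ih (by omega)
      have h4 := window t hc.le (a K) T R (h K (by omega))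
      have h5 := mul_le_mul_of_nonneg_left (h1 K (by omega)) hc.le
      have h6 : ∑ j ∈ Finset.range (a K), (Ch t R j : ℝ) +
          ∑ j ∈ Finset.Ico (a K) (a K + T), (Ch t R j : ℝ) ≤
          ∑ j ∈ Finset.range (a (K + 1)), (Ch t R j : ℝ) := by
        rw [Finset.sum_range_add_sum_Ico _ (Nat.le_add_right _ _)]
        exact Finset.sum_le_sum_of_subset_of_nonneg
          (Finset.range_subset_range.2 (ha K)) fun _ _ _ => Nat.cast_nonneg _
      push_cast
      linarith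
  have h3 := h2 Kw le_rfl
  have h4 := sum_Ch t R (a Kw)
  have h5 : (0 : ℝ) < (1 / 2) ^ R := by positivity
  have h6 := mul_le_mul_of_nonneg_left h3 (by positivity : (0 : ℝ) ≤ (1 / 4) * (1 / 2) ^ R)
  have h7 := h6.trans h4
  have h8 : (1 / 2 : ℝ) ^ R * 2 ^ R = 1 := by rw [← mul_pow]; norm_num
  have h9 : 8 * 2 ^ R * ((1 / 8) * (1 / 2 : ℝ) ^ R * Fintype.card G) <
      Kw * (c * ε) * ((1 / 8) * (1 / 2 : ℝ) ^ R * Fintype.card G) :=
    mul_lt_mul_of_pos_right hKw (by positivity)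
  have h10 : 8 * 2 ^ R * ((1 / 8) * (1 / 2 : ℝ) ^ R * Fintype.card G) = Fintype.card G := by
    calc 8 * 2 ^ R * ((1 / 8) * (1 / 2 : ℝ) ^ R * Fintype.card G) =
        ((1 / 2 : ℝ) ^ R * 2 ^ R) * Fintype.card G := by ring
      _ = _ := by rw [h8, one_mul]
  rw [h10] at h9
  have h11 : Kw * (c * ε) * ((1 / 8) * (1 / 2 : ℝ) ^ R * Fintype.card G) =
      1 / 4 * (1 / 2 : ℝ) ^ R * (Kw * (c * (ε / 2 * Fintype.card G))) := by ring
  rw [h11] at h9
  linarith

/-- Full levels. -/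
theorem full_level [Finite Ω] [Nonempty Ω] [MulAction.IsPretransitive G Ω] {a : ℕ} (haM : a < M)
    (hK : t.Kill a a) (R : ℕ) (g : G) (h1 : 1 ≤ Xn t a g) (h2 : Xn t a g ≤ R) :
    PG t ((1 / 2) ^ R) {g' | ∃ j, a ≤ j ∧ j ≤ a + 1 ∧ Xn t j g' ≠ Xn t a g'} a g := by
  obtain ⟨x0⟩ := ‹Nonempty Ω›
  refine PG_mono t ?_ (killing t haM le_rfl hK x0 g R h2)
  intro n hn h3
  refine ⟨a + 1, by omega, le_rfl, ?_⟩
  have h4 : Fx t (a + 1) (g * n) = ∅ := by
    rw [Set.eq_empty_iff_forall_notMem]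
    intro x hx
    refine h3 x ?_ hx
    rw [Nat.sub_self]
    exact cls_zero t x0 x
  have h5 : Xn t (a + 1) (g * n) = 0 := (F_eq_zero t).2 h4
  rw [h5, Xn_mul t g hn]
  omega

end Pool.Agent.Helper5.JO

namespace Pool.Agent.Helper5.JO

open Pool.Agent.Helper13.JO

theorem tree : TreeStmt := by
  intro K hK ε hε
  obtain ⟨R, hR⟩ := exists_nat_ge (2 / ε)
  have hR' : 2 ≤ ε * ((R : ℝ) + 1) := by
    rw [div_le_iff₀ hε] at hR
    nlinarith
  -- the windows
  obtain ⟨c, T, Kw, a, hc, ha, hKw, hmain⟩ : ∃ (c : ℝ) (T Kw : ℕ) (a : ℕ → ℕ), 0 < c ∧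
      (∀ k, a k + T ≤ a (k + 1)) ∧ 8 * 2 ^ R < Kw * (c * ε) ∧
      ∀ (M : ℕ) (G Ω : Type) [Group G] [Fintype G] [Finite Ω] [Nonempty Ω] [MulAction G Ω]
        [MulAction.IsPretransitive G Ω] (t : TreeAct G Ω M),
        (∀ T m, m < M → K T m → t.Kill T m) → a Kw ≤ M →
        ∀ k < Kw, ∀ g, 1 ≤ Xn t (a k) g → Xn t (a k) g ≤ R →
          PG t c {g' | ∃ j, a k ≤ j ∧ j ≤ a k + T ∧ Xn t j g' ≠ Xn t (a k) g'} (a k) g := by
    have hexists : ∀ c : ℝ, 0 < c → ∃ Kw : ℕ, (8 * 2 ^ R : ℝ) < Kw * (c * ε) := by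
      intro c hc
      obtain ⟨Kw, hKw⟩ := exists_nat_gt ((8 * 2 ^ R : ℝ) / (c * ε))
      rw [div_lt_iff₀ (by positivity)] at hKw
      exact ⟨Kw, hKw⟩
    rcases hK with hK | hK
    · obtain ⟨Kw, hKw⟩ := hexists ((1 / 2) ^ R) (by positivity)
      choose nxt hnxt1 hnxt2 using hK
      let a : ℕ → ℕ := fun k => Nat.rec (nxt 0) (fun _ x => nxt (x + 1)) k
      have ha0 : a 0 = nxt 0 := rfl
      have has : ∀ k, a (k + 1) = nxt (a k + 1) := fun _ => rfl
      have haK : ∀ k, K (a k) (a k) := by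
        intro k
        cases k with
        | zero => rw [ha0]; exact hnxt2 _
        | succ k => rw [has]; exact hnxt2 _
      have hstep : ∀ k, a k + 1 ≤ a (k + 1) := fun k => by rw [has]; exact hnxt1 _
      refine ⟨(1 / 2) ^ R, 1, Kw, a, by positivity, hstep, hKw, ?_⟩
      intro M G Ω _ _ _ _ _ _ t ht haM k hk g h1 h2
      have hamono : Monotone a := monotone_nat_of_le_succ fun k => by have := hstep k; omega
      have h3 : a k < M := by
        have := hstep k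
        have : a (k + 1) ≤ a Kw := hamono hk
        omega
      exact full_level t h3 (ht _ _ h3 (haK k)) R g h1 h2
    · obtain ⟨T, c, m1, hc, hc1, hCH⟩ := CH_all hK R
      obtain ⟨Kw, hKw⟩ := hexists c hc
      refine ⟨c, T, Kw, fun k => m1 + k * T, hc, fun k => by ring_nf; exact le_rfl, hKw, ?_⟩
      intro M G Ω _ _ _ _ _ _ t ht haM k hk g h1 h2
      refine hCH M G Ω t ht _ g (Nat.le_add_right _ _) ?_ h1 h2
      refine le_trans ?_ haM
      show m1 + k * T + T ≤ m1 + Kw * T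
      have : (k + 1) * T ≤ Kw * T := Nat.mul_le_mul_right T hk
      have h3 : (k + 1) * T = k * T + T := by ring
      omega
  refine ⟨a Kw, ?_⟩
  intro M hM G Ω _ _ _ _ _ _ t ht
  classical
  have := Fintype.ofFinite G
  have h1 := main_estimate t hc hε T R Kw a ha hM (hmain M G Ω t ht hM) hR' hKw
  rw [Nat.card_eq_fintype_card, Nat.card_eq_fintype_card, Fintype.card_subtype]
  exact h1

end Pool.Agent.Helper5.JO
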